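import Pool.Agent.R972.CT.Fin

/-!
# The Haar measure does not always minimize the mean cover time

On the cyclic group of order four with its cycle metric, for arrival rate `1/1000` and speed `1`,
seeds uniform on the subgroup `{0, 2}` have a smaller mean cover time than uniform seeds.
-/

set_option autoImplicit false

open MeasureTheory ProbabilityTheory Set Pool.Agent.R972.CT
open scoped ENNReal

namespace Pool.Agent.Results.MP_b215e8_pr.HaarNotOptimal

lemma exp_up {t : ℝ} (ht : 0 ≤ t) : Real.exp (-t) ≤ 1 - t + t ^ 2 := by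
  have h1 := Real.add_one_le_exp t
  have h2 : Real.exp (-t) = (Real.exp t)⁻¹ := Real.exp_neg t
  rw [h2, inv_le_comm₀ (Real.exp_pos t) (by nlinarith)]
  refine le_trans ?_ h1
  rw [inv_le_iff_one_le_mul₀ (by nlinarith)]
  have : (t + 1) * (1 - t + t ^ 2) = 1 + t ^ 3 := by ring
  rw [this]
  have := pow_nonneg ht 3
  linarith

lemma numeric : 1 / 2 + 1 / 4 * E (1 / 1000) 2 + 8 * (1 / 1000 : ℝ) ^ 2 <
    1 / 2 * E (1 / 1000) 1 := by
  have h0 : (0:ℝ) < 1 / 1000 := by norm_num
  have h1 := E_one h0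
  have h2 := E_two h0
  simp only [Finset.sum_range_succ, Finset.sum_range_zero] at h1 h2
  norm_num at h1 h2
  have a1 := Real.add_one_le_exp (-(1 / 4000 : ℝ))
  have a2 := Real.add_one_le_exp (-(1 / 2000 : ℝ))
  have a3 := Real.add_one_le_exp (-(3 / 4000 : ℝ))
  have a4 := Real.add_one_le_exp (-(1 / 1000 : ℝ))
  have b1 := exp_up (t := 1 / 1000) (by norm_num)
  have b2 := exp_up (t := 1 / 800) (by norm_num)
  have b3 := exp_up (t := 3 / 2000) (by norm_num)
  have b4 := exp_up (t := 7 / 4000) (by norm_num)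
  norm_num at *
  linarith

theorem result :
    ∃ (S : Type) (_ : AddCommGroup S) (_ : MetricSpace S) (_ : MeasurableSpace S)
      (_ : BorelSpace S) (_ : CompactSpace S) (_ : IsTopologicalAddGroup S),
      (∀ g x y : S, dist (g + x) (g + y) = dist x y) ∧
      ∃ (lam v : ℝ) (hlam : 0 < lam) (μ m : Measure S) (_ : IsProbabilityMeasure μ)
        (_ : IsProbabilityMeasure m), 0 < v ∧ m.IsAddHaarMeasure ∧
        meanCover lam v hlam μ < meanCover lam v hlam m := by
  refine ⟨C4, inferInstance, inferInstance, inferInstance, inferInstance, inferInstance,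
    inferInstance, dist_add, 1 / 1000, 1, by norm_num, mu,
    Measure.addHaarMeasure ⊤, inferInstance, ?_, one_pos, inferInstance, ?_⟩
  · constructor
    have := Measure.addHaarMeasure_self (K₀ := (⊤ : TopologicalSpace.PositiveCompacts C4))
    simpa using this
  · have hprob : IsProbabilityMeasure (Measure.addHaarMeasure
        (⊤ : TopologicalSpace.PositiveCompacts C4)) := by
      constructor
      have := Measure.addHaarMeasure_self (K₀ := (⊤ : TopologicalSpace.PositiveCompacts C4))
      simpa using this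
    set m := Measure.addHaarMeasure (⊤ : TopologicalSpace.PositiveCompacts C4) with hm
    have h0 : (0:ℝ) < 1 / 1000 := by norm_num
    have hU := mean_upper h0 mu
    have hL := mean_lower h0 m
    rw [sum_mu (fun j => ENNReal.ofReal (E (1 / 1000) j))] at hU
    simp_rw [haar_val m] at hL
    rw [sum_cyc (fun j => 4⁻¹ * 4⁻¹ * ENNReal.ofReal (E (1 / 1000) j))] at hL
    have hA := mean_ne_top h0
    set A := ∫⁻ x, ENNReal.ofReal x ∂(expMeasure (1 / 1000)) with hAdef
    have n1 := E_nonneg h0 1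
    have n2 := E_nonneg h0 2
    have e0 : E (1 / 1000) 0 = 2 := E_zero h0
    have c2 : (2 : ℝ≥0∞)⁻¹ = ENNReal.ofReal (1 / 2) := by
      rw [one_div, ENNReal.ofReal_inv_of_pos (by norm_num)]; simp
    have c4 : (4 : ℝ≥0∞)⁻¹ = ENNReal.ofReal (1 / 4) := by
      rw [one_div, ENNReal.ofReal_inv_of_pos (by norm_num)]; simp
    have d2 : (2 : ℝ≥0∞) = ENNReal.ofReal 2 := by simp
    have d4 : (4 : ℝ≥0∞) = ENNReal.ofReal 4 := by simp
    have d8 : (8 : ℝ≥0∞) = ENNReal.ofReal 8 := by simp
    have hU' : meanCover (1 / 1000) 1 h0 mu ≤ A + ENNReal.ofReal (1 + 1 / 2 * E (1 / 1000) 2) := by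
      refine hU.trans (le_of_eq ?_)
      rw [e0, c2, d2, ← ENNReal.ofReal_mul (by norm_num), ← ENNReal.ofReal_mul (by norm_num),
        ← ENNReal.ofReal_mul (by norm_num), ← ENNReal.ofReal_add (by norm_num) (by positivity),
        ← ENNReal.ofReal_mul (by norm_num)]
      congr 2
      ring
    have hL' : A + ENNReal.ofReal (1 / 2 + 1 / 2 * E (1 / 1000) 1 + 1 / 4 * E (1 / 1000) 2) ≤
        meanCover (1 / 1000) 1 h0 m + ENNReal.ofReal (8 * (1 / 1000) ^ 2) := by
      refine le_trans (le_of_eq ?_) hL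
      rw [e0, c4, d4, d8]
      simp only [← ENNReal.ofReal_mul (by norm_num : (0:ℝ) ≤ 1 / 4),
        ← ENNReal.ofReal_mul (by norm_num : (0:ℝ) ≤ 1 / 4 * (1 / 4)),
        ← ENNReal.ofReal_mul (by norm_num : (0:ℝ) ≤ 4),
        ← ENNReal.ofReal_mul (by norm_num : (0:ℝ) ≤ 8)]
      rw [← ENNReal.ofReal_add (by norm_num) (by positivity),
        ← ENNReal.ofReal_add (by positivity) (by positivity)]
      congr 2
      ring
    have hlt : A + ENNReal.ofReal (1 + 1 / 2 * E (1 / 1000) 2) + ENNReal.ofReal (8 * (1 / 1000) ^ 2) <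
        A + ENNReal.ofReal (1 / 2 + 1 / 2 * E (1 / 1000) 1 + 1 / 4 * E (1 / 1000) 2) := by
      rw [add_assoc, ← ENNReal.ofReal_add (by positivity) (by positivity)]
      refine ENNReal.add_lt_add_left hA ?_
      rw [ENNReal.ofReal_lt_ofReal_iff (by positivity)]
      have := numeric
      linarith
    have h3 : meanCover (1 / 1000) 1 h0 mu + ENNReal.ofReal (8 * (1 / 1000) ^ 2) <
        meanCover (1 / 1000) 1 h0 m + ENNReal.ofReal (8 * (1 / 1000) ^ 2) :=
      lt_of_le_of_lt (add_le_add_left hU' _) (hlt.trans_le hL')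
    exact lt_of_add_lt_add_right h3

end Pool.Agent.Results.MP_b215e8_pr.HaarNotOptimal
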